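import Pool.Agent.H950.ON.St

set_option autoImplicit false
set_option linter.unusedVariables false

/-!
# The number of closed loops plus two is the number of clusters of both colours

Proof by counting. The sets of hexagons of the parallelogram which are unions of clusters (of both
colours) are in bijection with the pairs of a bit and a union of components of the configuration:
the set `S` corresponds to the walls between `S` and its complement (potentials).
-/

namespace Pool.Agent.H337.ONL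

open Pool.Agent.X136.ON Pool.Agent.H950.ON

/-! ### counting of unions of classes -/

open Classical in
/-- the unions of classes -/
noncomputable def InvS {α γ : Type} (X : Finset α) (cl : α → γ) : Finset (Finset α) :=
  X.powerset.filter fun S => ∀ x ∈ X, ∀ y ∈ X, cl x = cl y → (x ∈ S ↔ y ∈ S)

theorem mem_InvS {α γ : Type} {X : Finset α} {cl : α → γ} {S : Finset α} :
    S ∈ InvS X cl ↔ S ⊆ X ∧ ∀ x ∈ X, ∀ y ∈ X, cl x = cl y → (x ∈ S ↔ y ∈ S) := by
  simp only [InvS, Finset.mem_filter, Finset.mem_powerset]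

/-- number of classes -/
noncomputable def nCl {α γ : Type} (X : Finset α) (cl : α → γ) : ℕ := (cl '' ↑X).ncard

theorem inv_card {α γ : Type} (X : Finset α) (cl : α → γ) : (InvS X cl).card = 2 ^ nCl X cl := by
  classical
  have h0 : nCl X cl = (X.image cl).card := by
    unfold nCl
    rw [← Set.ncard_coe_finset, Finset.coe_image]
  rw [h0, ← Finset.card_powerset]
  refine Finset.card_bij' (fun S _ => S.image cl) (fun T _ => X.filter fun x => cl x ∈ T) ?_ ?_ ?_ ?_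
  · intro S hS
    exact Finset.mem_powerset.2 (Finset.image_subset_image (mem_InvS.1 hS).1)
  · intro T _
    refine mem_InvS.2 ⟨Finset.filter_subset _ _, fun x hx y hy hxy => ?_⟩
    rw [Finset.mem_filter, Finset.mem_filter, hxy]
    exact ⟨fun h => ⟨hy, h.2⟩, fun h => ⟨hx, h.2⟩⟩
  · intro S hS
    rw [mem_InvS] at hS
    ext x
    rw [Finset.mem_filter, Finset.mem_image]
    constructor
    · rintro ⟨hx, s, hs, hsx⟩
      exact (hS.2 s (hS.1 hs) x hx hsx).1 hs
    · intro hx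
      exact ⟨hS.1 hx, x, hx, rfl⟩
  · intro T hT
    rw [Finset.mem_powerset] at hT
    ext t
    rw [Finset.mem_image]
    constructor
    · rintro ⟨x, hx, rfl⟩
      exact (Finset.mem_filter.1 hx).2
    · intro ht
      obtain ⟨x, hx, hxt⟩ := Finset.mem_image.1 (hT ht)
      exact ⟨x, Finset.mem_filter.2 ⟨hx, by rw [hxt]; exact ht⟩, hxt⟩

/-! ### the three edges at a vertex -/

theorem tri (s : Hx → Prop) (v : Vx) :
    ((s (s1 (ea v)) ↔ s (s2 (ea v))) ↔ (s (s1 (eb v)) ↔ s (s2 (eb v)))) ↔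
      (s (s1 (ec v)) ↔ s (s2 (ec v))) := by
  obtain ⟨i, j, k⟩ := v
  cases k
  · simp only [ea, eb, ec, s1, s2]
    tauto
  · simp only [ea, eb, ec, s1, s2]
    tauto

theorem pr1 (a b c : Prop) : ((a ↔ c) ↔ (b ↔ c)) ↔ (a ↔ b) := by
  by_cases a <;> by_cases b <;> by_cases c <;> simp_all

theorem pr2 (a b : Prop) : (a ↔ (a ↔ b)) ↔ b := by
  by_cases a <;> by_cases b <;> simp_all

theorem prop3 (A B C A' B' C' : Prop) (h1 : (A ↔ B) ↔ C) (h2 : (A' ↔ B') ↔ C') (ha : A → A')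
    (hb : B → B') (hc : C → C') :
    (¬ A → ¬ B → (A' ↔ B')) ∧ (¬ A → ¬ C → (A' ↔ C')) ∧ (¬ B → ¬ C → (B' ↔ C')) := by
  refine ⟨fun a b => h2.2 (hc (h1.1 ⟨fun x => absurd x a, fun x => absurd x b⟩)), fun a c => ?_,
    fun b c => ?_⟩
  · have hB : B := by
      by_contra hb'
      exact c (h1.1 ⟨fun x => absurd x a, fun x => absurd x hb'⟩)
    exact ⟨fun a' => h2.1 ⟨fun _ => hb hB, fun _ => a'⟩, fun c' => (h2.2 c').2 (hb hB)⟩
  · have hA : A := by
      by_contra ha'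
      exact c (h1.1 ⟨fun x => absurd x ha', fun x => absurd x b⟩)
    exact ⟨fun b' => h2.1 ⟨fun _ => b', fun _ => ha hA⟩, fun c' => (h2.2 c').1 (ha hA)⟩

theorem two_walls (s t : Hx → Prop) (v : Vx)
    (h : ∀ e, Inc v e → (s (s1 e) ↔ s (s2 e)) → (t (s1 e) ↔ t (s2 e))) (e e' : Ed)
    (he : Inc v e) (he' : Inc v e') (hw : ¬ (s (s1 e) ↔ s (s2 e)))
    (hw' : ¬ (s (s1 e') ↔ s (s2 e'))) :
    (t (s1 e) ↔ t (s2 e)) ↔ (t (s1 e') ↔ t (s2 e')) := by
  obtain ⟨p1, p2, p3⟩ := prop3 _ _ _ _ _ _ (tri s v) (tri t v)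
    (h (ea v) (inc_iff.2 (Or.inl rfl))) (h (eb v) (inc_iff.2 (Or.inr (Or.inl rfl))))
    (h (ec v) (inc_iff.2 (Or.inr (Or.inr rfl))))
  rw [inc_iff] at he he'
  rcases he with rfl | rfl | rfl <;> rcases he' with rfl | rfl | rfl
  · exact Iff.rfl
  · exact p1 hw hw'
  · exact p2 hw hw'
  · exact (p1 hw' hw).symm
  · exact Iff.rfl
  · exact p3 hw hw'
  · exact (p2 hw' hw).symm
  · exact (p3 hw' hw).symm
  · exact Iff.rfl

theorem cover (P : Hx → Prop) (v : Vx) (e e' : Ed) (he : Inc v e) (he' : Inc v e') (hne : e ≠ e')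
    (h1 : P (s1 e)) (h2 : P (s2 e)) (h3 : P (s1 e')) (h4 : P (s2 e')) :
    ∀ e'', Inc v e'' → P (s1 e'') ∧ P (s2 e'') := by
  intro e'' he''
  rw [inc_iff] at he he' he''
  obtain ⟨i, j, k⟩ := v
  cases k
  · simp only [ea, eb, ec] at he he' he''
    rcases he with rfl | rfl | rfl <;> rcases he' with rfl | rfl | rfl <;>
      first
        | exact absurd rfl hne
        | (simp only [s1, s2] at h1 h2 h3 h4
           rcases he'' with rfl | rfl | rfl <;> simp only [s1, s2] <;>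
             exact ⟨by assumption, by assumption⟩)
  · simp only [ea, eb, ec] at he he' he''
    rcases he with rfl | rfl | rfl <;> rcases he' with rfl | rfl | rfl <;>
      first
        | exact absurd rfl hne
        | (simp only [s1, s2] at h1 h2 h3 h4
           rcases he'' with rfl | rfl | rfl <;> simp only [s1, s2] <;>
             exact ⟨by assumption, by assumption⟩)

theorem even3 (A B C ga gb gc : Prop) [Decidable (¬ A ∧ ga)] [Decidable (¬ B ∧ gb)]
    [Decidable (¬ C ∧ gc)] (h1 : (A ↔ B) ↔ C) (iab : ¬ A → ¬ B → (ga ↔ gb))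
    (iac : ¬ A → ¬ C → (ga ↔ gc)) (ibc : ¬ B → ¬ C → (gb ↔ gc)) :
    Even (((if ¬ A ∧ ga then 1 else 0) + ((if ¬ B ∧ gb then 1 else 0) +
      (if ¬ C ∧ gc then 1 else 0))) : ℕ) := by
  by_cases hA : A <;> by_cases hB : B <;> by_cases hC : C <;>
    simp only [hA, hB, hC, not_true_eq_false, not_false_eq_true, true_and, false_and, if_false,
      iff_true, iff_false, forall_const, IsEmpty.forall_iff, add_zero,
      zero_add] at h1 iab iac ibc ⊢ <;>
    by_cases h2 : ga <;> by_cases h3 : gb <;> by_cases h4 : gc <;> simp_all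

/-- a set of walls which contains all walls at a vertex, or none, has even degree -/
theorem even_walls (s : Hx → Prop) (g : Ed → Prop) (v : Vx)
    (hg : ∀ e e', Inc v e → Inc v e' → ¬ (s (s1 e) ↔ s (s2 e)) → ¬ (s (s1 e') ↔ s (s2 e')) →
      (g e ↔ g e')) :
    Even {e | e ∈ {e : Ed | ¬ (s (s1 e) ↔ s (s2 e)) ∧ g e} ∧ Inc v e}.ncard := by
  classical
  have hset : {e | e ∈ {e : Ed | ¬ (s (s1 e) ↔ s (s2 e)) ∧ g e} ∧ Inc v e} =
      (↑((({ea v, eb v, ec v} : Finset Ed)).filter fun e => ¬ (s (s1 e) ↔ s (s2 e)) ∧ g e) :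
        Set Ed) := by
    ext e
    rw [Finset.mem_coe, Finset.mem_filter, Finset.mem_insert, Finset.mem_insert,
      Finset.mem_singleton, ← inc_iff]
    exact and_comm
  rw [hset, Set.ncard_coe_finset, Finset.card_filter, Finset.sum_insert, Finset.sum_insert,
    Finset.sum_singleton]
  · exact even3 _ _ _ _ _ _ (tri s v)
      (hg (ea v) (eb v) (inc_iff.2 (Or.inl rfl)) (inc_iff.2 (Or.inr (Or.inl rfl))))
      (hg (ea v) (ec v) (inc_iff.2 (Or.inl rfl)) (inc_iff.2 (Or.inr (Or.inr rfl))))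
      (hg (eb v) (ec v) (inc_iff.2 (Or.inr (Or.inl rfl))) (inc_iff.2 (Or.inr (Or.inr rfl))))
  · rw [Finset.mem_singleton]
    exact eb_ne_ec v
  · rw [Finset.mem_insert, Finset.mem_singleton, not_or]
    exact ⟨ea_ne_eb v, ea_ne_ec v⟩

/-! ### integers -/

theorem up_ind {P : ℤ → Prop} {l r : ℤ} (h0 : P l) (hs : ∀ x, l ≤ x → x < r → P x → P (x + 1)) :
    ∀ x, l ≤ x → x ≤ r → P x := by
  intro x hx
  induction x, hx using Int.leInduction with
  | base => intro _; exact h0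
  | succ n hn ih => intro hr; exact hs n hn (by omega) (ih (by omega))

theorem down_ind {P : ℤ → Prop} {l r : ℤ} (h0 : P r) (hs : ∀ x, l < x → x ≤ r → P x → P (x - 1)) :
    ∀ x, l ≤ x → x ≤ r → P x := by
  intro x hl hr
  have h : ∀ y, -r ≤ y → y ≤ -l → P (-y) := by
    apply up_ind
    · rw [neg_neg]; exact h0
    · intro y hy1 hy2 hP
      have := hs (-y) (by omega) (by omega) hP
      have e : -(y + 1) = -y - 1 := by ring
      rw [e]
      exact this
  have := h (-x) (by omega) (by omega)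
  rwa [neg_neg] at this

/-! ### the domain -/

section dom

variable (D : TD)

theorem W_pl {F : Finset Hx} {h : Hx} (hh : h ∈ D.W) : h ∈ D.pl F := Or.inl hh

theorem Z_pl {F : Finset Hx} (hF : F ⊆ D.ins) {h : Hx} (hh : h ∈ D.Z) : h ∉ D.pl F := by
  rintro (h1 | h1)
  · have h2 : h.1 ≤ D.w h.2 := h1
    have h3 : D.z h.2 ≤ h.1 := hh
    have := D.lt h.2
    omega
  · exact (D.mem_ins.1 (hF h1)).2 hh

theorem row_WZ {h : Hx} (hr : h.2 ≤ D.lo ∨ D.hi ≤ h.2) : h ∈ D.W ∨ h ∈ D.Z := by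
  have hz : D.z h.2 = D.w h.2 + 1 := by
    rcases hr with hr | hr
    · exact D.bot _ hr
    · exact D.top _ hr
  by_cases h1 : h.1 ≤ D.w h.2
  · exact Or.inl h1
  · right
    show D.z h.2 ≤ h.1
    omega

theorem E_rows {e : Ed} (he : e ∈ D.E) : (D.lo ≤ (s1 e).2 ∧ (s1 e).2 ≤ D.hi) ∧
    (D.lo ≤ (s2 e).2 ∧ (s2 e).2 ≤ D.hi) := by
  rw [D.mem_E] at he
  exact ⟨he.1, he.2.1⟩

theorem not_E_rows {F : Finset Hx} (hF : F ⊆ D.ins) {e : Ed} (he : e ∉ D.E)
    (hw : ¬ (s1 e ∈ D.pl F ↔ s2 e ∈ D.pl F)) :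
    ¬ ((D.lo ≤ (s1 e).2 ∧ (s1 e).2 ≤ D.hi) ∧ (D.lo ≤ (s2 e).2 ∧ (s2 e).2 ≤ D.hi)) := by
  intro h
  apply he
  rw [D.mem_E]
  refine ⟨h.1, h.2, ?_, ?_⟩
  · rintro ⟨h1, h2⟩
    exact hw ⟨fun _ => W_pl D h2, fun _ => W_pl D h1⟩
  · rintro ⟨h1, h2⟩
    exact hw ⟨fun h3 => absurd h3 (Z_pl D hF h1), fun h3 => absurd h3 (Z_pl D hF h2)⟩

theorem wall_row {F : Finset Hx} (hF : F ⊆ D.ins) (i j : ℤ) (hr : j ≤ D.lo ∨ D.hi ≤ j)
    (hw : ¬ ((i, j) ∈ D.pl F ↔ (i + 1, j) ∈ D.pl F)) : i = D.w j := by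
  have hz : D.z j = D.w j + 1 := by
    rcases hr with hr | hr
    · exact D.bot _ hr
    · exact D.top _ hr
  have key : ∀ x : ℤ, (x, j) ∈ D.pl F ↔ x ≤ D.w j := by
    intro x
    rcases row_WZ D (h := (x, j)) hr with h | h
    · exact ⟨fun _ => h, fun _ => W_pl D h⟩
    · have h2 : D.z j ≤ x := h
      exact ⟨fun h3 => absurd h3 (Z_pl D hF h), fun h3 => by omega⟩
  rw [key, key] at hw
  by_contra hne
  apply hw
  constructor
  · intro h; omega
  · intro h; omega

/-- a vertex with a wall of the domain and a wall outside is a marked point -/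
theorem end_cases {F : Finset Hx} (hF : F ⊆ D.ins) (v : Vx) (e e' : Ed) (he : Inc v e)
    (he' : Inc v e') (hE : e ∈ D.E) (hE' : e' ∉ D.E)
    (hw : ¬ (s1 e ∈ D.pl F ↔ s2 e ∈ D.pl F)) (hw' : ¬ (s1 e' ∈ D.pl F ↔ s2 e' ∈ D.pl F)) :
    v = D.a ∨ v = D.b := by
  have r1 := E_rows D hE
  have r2 := not_E_rows D hF hE' hw'
  rw [inc_iff] at he he'
  obtain ⟨i, j, k⟩ := v
  cases k
  · left
    have hj : j = D.hi ∧ e = (i, j, Dir.A) := by
      simp only [ea, eb, ec] at he he'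
      rcases he with rfl | rfl | rfl <;> rcases he' with rfl | rfl | rfl <;>
        simp only [s1, s2] at r1 r2
      · omega
      · exact ⟨by omega, rfl⟩
      · exact ⟨by omega, rfl⟩
      · omega
      · omega
      · omega
      · omega
      · omega
      · omega
    obtain ⟨hj1, hj2⟩ := hj
    rw [hj2] at hw
    have hi := wall_row D hF i j (Or.inr hj1.ge) hw
    unfold TD.a
    rw [← hj1, ← hi]
  · right
    have hj : j + 1 = D.lo ∧ e = (i, j + 1, Dir.A) := by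
      simp only [ea, eb, ec] at he he'
      rcases he with rfl | rfl | rfl <;> rcases he' with rfl | rfl | rfl <;>
        simp only [s1, s2] at r1 r2
      · omega
      · exact ⟨by omega, rfl⟩
      · exact ⟨by omega, rfl⟩
      · omega
      · omega
      · omega
      · omega
      · omega
      · omega
    obtain ⟨hj1, hj2⟩ := hj
    rw [hj2] at hw
    have hi := wall_row D hF i (j + 1) (Or.inl hj1.le) hw
    unfold TD.b
    rw [← hj1, ← hi]
    simp

variable {D} {l r c d : ℤ}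

theorem mem_bx {h : Hx} : h ∈ bx l r c d ↔ (l ≤ h.1 ∧ h.1 ≤ r) ∧ (c ≤ h.2 ∧ h.2 ≤ d) := by
  unfold bx
  rw [Finset.mem_product, Finset.mem_Icc, Finset.mem_Icc]

theorem E_bx (hf : Fits D l r c d) {e : Ed} (he : e ∈ D.E) :
    s1 e ∈ bx l r c d ∧ s2 e ∈ bx l r c d := by
  have r1 := E_rows D he
  have hlo := hf.lo
  have hhi := hf.hi
  rw [D.mem_E] at he
  obtain ⟨-, -, h3, h4⟩ := he
  unfold TD.W at h3
  unfold TD.Z at h4
  simp only [Set.mem_ofPred_eq, not_and, not_le] at h3 h4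
  have w1 := hf.w (s1 e).2 (by omega) (by omega)
  have w2 := hf.w (s2 e).2 (by omega) (by omega)
  have z1 := hf.z (s1 e).2 (by omega) (by omega)
  have z2 := hf.z (s2 e).2 (by omega) (by omega)
  rw [mem_bx, mem_bx]
  obtain ⟨i, j, k⟩ := e
  cases k <;> simp only [s1, s2] at r1 h3 h4 w1 w2 z1 z2 ⊢
  · refine ⟨⟨⟨?_, ?_⟩, by omega, by omega⟩, ⟨?_, ?_⟩, by omega, by omega⟩
    · by_contra hc
      have := h3 (by omega)
      omega
    · by_contra hc
      have := h4 (by omega)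
      omega
    · by_contra hc
      have := h3 (by omega)
      omega
    · by_contra hc
      have := h4 (by omega)
      omega
  · refine ⟨⟨⟨?_, ?_⟩, by omega, by omega⟩, ⟨?_, ?_⟩, by omega, by omega⟩
    · by_contra hc
      have := h3 (by omega)
      omega
    · by_contra hc
      have := h4 (by omega)
      omega
    · by_contra hc
      have := h3 (by omega)
      omega
    · by_contra hc
      have := h4 (by omega)
      omega
  · refine ⟨⟨⟨?_, ?_⟩, by omega, by omega⟩, ⟨?_, ?_⟩, by omega, by omega⟩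
    · by_contra hc
      have := h3 (by omega)
      omega
    · by_contra hc
      have := h4 (by omega)
      omega
    · by_contra hc
      have := h3 (by omega)
      omega
    · by_contra hc
      have := h4 (by omega)
      omega

theorem nbrA (x y : ℤ) : Nbr (x, y) (x + 1, y) := ⟨(x, y, Dir.A), Or.inl ⟨rfl, rfl⟩⟩

theorem nbrB (x y : ℤ) : Nbr (x, y) (x, y + 1) := ⟨(x, y, Dir.B), Or.inl ⟨rfl, rfl⟩⟩

theorem nbr_symm {u v : Hx} (h : Nbr u v) : Nbr v u := by
  obtain ⟨e, he⟩ := h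
  exact ⟨e, he.symm⟩

/-- the parallelogram is connected -/
theorem bx_conn (P : Hx → Prop) (h0 : P (l, c))
    (hs : ∀ u v, u ∈ bx l r c d → v ∈ bx l r c d → Nbr u v → P u → P v) :
    ∀ h ∈ bx l r c d, P h := by
  rintro ⟨x, y⟩ hh
  have hm := mem_bx.1 hh
  dsimp only at hm
  obtain ⟨⟨h1, h2⟩, h3, h4⟩ := hm
  have hcol : ∀ y, c ≤ y → y ≤ d → P (l, y) := by
    refine up_ind (P := fun y => P (l, y)) h0 ?_
    intro t ht1 ht2 hP
    exact hs _ _ (mem_bx.2 ⟨⟨le_rfl, by dsimp only; omega⟩, ht1, by dsimp only; omega⟩)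
      (mem_bx.2 ⟨⟨le_rfl, by dsimp only; omega⟩, by dsimp only; omega, by dsimp only; omega⟩)
      (nbrB l t) hP
  have hrow : ∀ x, l ≤ x → x ≤ r → P (x, y) := by
    refine up_ind (P := fun x => P (x, y)) (hcol y h3 h4) ?_
    intro t ht1 ht2 hP
    exact hs _ _ (mem_bx.2 ⟨⟨ht1, by dsimp only; omega⟩, h3, h4⟩)
      (mem_bx.2 ⟨⟨by dsimp only; omega, by dsimp only; omega⟩, h3, h4⟩) (nbrA t y) hP
  exact hrow x h1 h2

/-- the left part of the parallelogram is connected -/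
theorem W_conn (hf : Fits D l r c d) (P : Hx → Prop) (h0 : P (l, c))
    (hs : ∀ u v, u ∈ bx l r c d → v ∈ bx l r c d → u ∈ D.W → v ∈ D.W → Nbr u v → P u → P v) :
    ∀ h ∈ bx l r c d, h ∈ D.W → P h := by
  rintro ⟨x, y⟩ hh hW
  have hm := mem_bx.1 hh
  dsimp only at hm
  obtain ⟨⟨h1, h2⟩, h3, h4⟩ := hm
  have hWx : x ≤ D.w y := hW
  have hcol : ∀ y, c ≤ y → y ≤ d → P (l, y) := by
    refine up_ind (P := fun y => P (l, y)) h0 ?_
    intro t ht1 ht2 hP
    have w1 := hf.w t ht1 (by omega)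
    have w2 := hf.w (t + 1) (by omega) (by omega)
    exact hs _ _ (mem_bx.2 ⟨⟨le_rfl, by dsimp only; omega⟩, ht1, by dsimp only; omega⟩)
      (mem_bx.2 ⟨⟨le_rfl, by dsimp only; omega⟩, by dsimp only; omega, by dsimp only; omega⟩)
      w1 w2 (nbrB l t) hP
  have hrow : ∀ x', l ≤ x' → x' ≤ x → P (x', y) := by
    refine up_ind (P := fun x => P (x, y)) (hcol y h3 h4) ?_
    intro t ht1 ht2 hP
    refine hs _ _ (mem_bx.2 ⟨⟨ht1, by dsimp only; omega⟩, h3, h4⟩)
      (mem_bx.2 ⟨⟨by dsimp only; omega, by dsimp only; omega⟩, h3, h4⟩) ?_ ?_ (nbrA t y) hP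
    · show t ≤ D.w y
      omega
    · show t + 1 ≤ D.w y
      omega
  exact hrow x h1 le_rfl

/-- the right part of the parallelogram is connected -/
theorem Z_conn (hf : Fits D l r c d) (P : Hx → Prop) (h0 : P (r, c))
    (hs : ∀ u v, u ∈ bx l r c d → v ∈ bx l r c d → u ∈ D.Z → v ∈ D.Z → Nbr u v → P u → P v) :
    ∀ h ∈ bx l r c d, h ∈ D.Z → P h := by
  rintro ⟨x, y⟩ hh hZ
  have hm := mem_bx.1 hh
  dsimp only at hm
  obtain ⟨⟨h1, h2⟩, h3, h4⟩ := hm
  have hZx : D.z y ≤ x := hZ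
  have hcol : ∀ y, c ≤ y → y ≤ d → P (r, y) := by
    refine up_ind (P := fun y => P (r, y)) h0 ?_
    intro t ht1 ht2 hP
    have w1 := hf.z t ht1 (by omega)
    have w2 := hf.z (t + 1) (by omega) (by omega)
    exact hs _ _ (mem_bx.2 ⟨⟨by dsimp only; omega, le_rfl⟩, ht1, by dsimp only; omega⟩)
      (mem_bx.2 ⟨⟨by dsimp only; omega, le_rfl⟩, by dsimp only; omega, by dsimp only; omega⟩)
      w1 w2 (nbrB r t) hP
  have hrow : ∀ x', x ≤ x' → x' ≤ r → P (x', y) := by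
    refine down_ind (P := fun x => P (x, y)) (hcol y h3 h4) ?_
    intro t ht1 ht2 hP
    refine hs _ _ (mem_bx.2 ⟨⟨by dsimp only; omega, ht2⟩, h3, h4⟩)
      (mem_bx.2 ⟨⟨by dsimp only; omega, by dsimp only; omega⟩, h3, h4⟩) ?_ ?_ ?_ hP
    · show D.z y ≤ t
      omega
    · show D.z y ≤ t - 1
      omega
    · have := nbr_symm (nbrA (t - 1) y)
      rwa [sub_add_cancel] at this
  exact hrow x le_rfl h2

/-! ### walls -/

theorem mem_om {F : Finset Hx} {e : Ed} :
    e ∈ D.om F ↔ e ∈ D.E ∧ ¬ (s1 e ∈ D.pl F ↔ s2 e ∈ D.pl F) := by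
  simp only [TD.om, Finset.mem_filter]

/-- a wall in a row where the two parts are adjacent -/
theorem row_om {F : Finset Hx} (hF : F ⊆ D.ins) (j : ℤ) (h1 : D.lo ≤ j) (h2 : j ≤ D.hi)
    (hz : D.z j = D.w j + 1) : (D.w j, j, Dir.A) ∈ D.om F ∧ (D.w j, j) ∈ D.W ∧
      (D.w j + 1, j) ∈ D.Z := by
  have hW : ((D.w j, j) : Hx) ∈ D.W := by
    show D.w j ≤ D.w j
    exact le_rfl
  have hZ : ((D.w j + 1, j) : Hx) ∈ D.Z := by
    show D.z j ≤ D.w j + 1
    exact hz.le
  refine ⟨mem_om.2 ⟨(D.mem_E).2 ⟨⟨h1, h2⟩, ⟨h1, h2⟩, ?_, ?_⟩, ?_⟩, hW, hZ⟩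
  · rintro ⟨-, h3⟩
    have h4 : D.w j + 1 ≤ D.w j := h3
    omega
  · rintro ⟨h3, -⟩
    have h4 : D.z j ≤ D.w j := h3
    omega
  · intro h3
    exact Z_pl D hF hZ (h3.1 (W_pl D hW))

theorem joined_inc {ω : Finset Ed} {v : Vx} {e : Ed} (he : e ∈ ω) (hi : Inc v e) :
    Joined ↑ω v (up e) := by
  rcases hi with rfl | rfl
  · exact Relation.ReflTransGen.refl
  · exact (joined_edge (Finset.mem_coe.2 he)).symm

/-- sets which contain neighbours of the same colour together -/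
def Loc (D : TD) (V F : Finset Hx) (S : Finset Hx) : Prop :=
  ∀ u v, u ∈ V → v ∈ V → Nbr u v → (u ∈ D.pl F ↔ v ∈ D.pl F) → (u ∈ S ↔ v ∈ S)

theorem same_vertex (hf : Fits D l r c d) {F S : Finset Hx} (hS : Loc D (bx l r c d) F S)
    {v : Vx} {e e' : Ed} (he : e ∈ D.om F) (he' : e' ∈ D.om F) (hi : Inc v e) (hi' : Inc v e') :
    (s1 e ∈ S ↔ s2 e ∈ S) ↔ (s1 e' ∈ S ↔ s2 e' ∈ S) := by
  by_cases hne : e = e'
  · rw [hne]
  · obtain ⟨hE, hw⟩ := mem_om.1 he
    obtain ⟨hE', hw'⟩ := mem_om.1 he'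
    have b1 := E_bx hf hE
    have b2 := E_bx hf hE'
    apply two_walls (fun h => h ∈ D.pl F) (fun h => h ∈ S) v _ e e' hi hi' hw hw'
    intro e'' hi'' hc
    have b3 := cover (fun h => h ∈ bx l r c d) v e e' hi hi' hne b1.1 b1.2 b2.1 b2.2 e'' hi''
    exact hS _ _ b3.1 b3.2 ⟨e'', Or.inl ⟨rfl, rfl⟩⟩ hc

theorem same_comp (hf : Fits D l r c d) {F S : Finset Hx} (hS : Loc D (bx l r c d) F S)
    {e : Ed} (he : e ∈ D.om F) {w : Vx} (hj : Joined ↑(D.om F) (up e) w) :
    ∀ e' ∈ D.om F, Inc w e' → ((s1 e ∈ S ↔ s2 e ∈ S) ↔ (s1 e' ∈ S ↔ s2 e' ∈ S)) := by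
  induction hj with
  | refl =>
    intro e' he' hi'
    exact same_vertex hf hS he he' (Or.inl rfl) hi'
  | @tail u w _ hs ih =>
    intro e' he' hi'
    obtain ⟨e2, he2, hh⟩ := hs
    have he2' : e2 ∈ D.om F := Finset.mem_coe.1 he2
    have hu : Inc u e2 := by
      rcases hh with ⟨h, -⟩ | ⟨-, h⟩
      · exact Or.inl h
      · exact Or.inr h
    have hw : Inc w e2 := by
      rcases hh with ⟨-, h⟩ | ⟨h, -⟩
      · exact Or.inr h
      · exact Or.inl h
    exact (ih e2 he2' hu).trans (same_vertex hf hS he2' he' hw hi')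

/-- the two sets agree at `h` -/
def Ag (S S' : Finset Hx) (h : Hx) : Prop := h ∈ S ↔ h ∈ S'

theorem inj_key (hf : Fits D l r c d) {F S S' : Finset Hx} (hF : F ⊆ D.ins)
    (hS : Loc D (bx l r c d) F S) (hS' : Loc D (bx l r c d) F S')
    (hJ : ∀ e ∈ D.om F, ((s1 e ∈ S ↔ s2 e ∈ S) ↔ (s1 e ∈ S' ↔ s2 e ∈ S')))
    (h0 : Ag S S' (l, c)) : ∀ h ∈ bx l r c d, Ag S S' h := by
  have hsame : ∀ u v, u ∈ bx l r c d → v ∈ bx l r c d → Nbr u v →
      (u ∈ D.pl F ↔ v ∈ D.pl F) → Ag S S' u → Ag S S' v := by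
    intro u v hu hv hn hc ha
    have h1 := hS u v hu hv hn hc
    have h2 := hS' u v hu hv hn hc
    unfold Ag at ha ⊢
    rw [← h1, ← h2]
    exact ha
  have hω : ∀ e ∈ D.om F, (Ag S S' (s1 e) ↔ Ag S S' (s2 e)) := by
    intro e he
    have := hJ e he
    unfold Ag
    by_cases p1 : s1 e ∈ S <;> by_cases p2 : s2 e ∈ S <;> by_cases p3 : s1 e ∈ S' <;>
      by_cases p4 : s2 e ∈ S' <;> simp only [p1, p2, p3, p4] at this ⊢ <;> simp at this ⊢
  have hW : ∀ h ∈ bx l r c d, h ∈ D.W → Ag S S' h := by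
    apply W_conn hf (Ag S S') h0
    intro u v hu hv hu' hv' hn ha
    exact hsame u v hu hv hn ⟨fun _ => W_pl D hv', fun _ => W_pl D hu'⟩ ha
  obtain ⟨ho, hoW, hoZ⟩ := row_om hF D.hi D.lohi.le le_rfl (D.top _ le_rfl)
  have hob := E_bx hf (mem_om.1 ho).1
  have hZ0 : Ag S S' (D.w D.hi + 1, D.hi) := (hω _ ho).1 (hW _ hob.1 hoW)
  have hcm : Ag S S' (r, c) := by
    by_contra hcon
    have hnot : ∀ h ∈ bx l r c d, h ∈ D.Z → ¬ Ag S S' h := by
      apply Z_conn hf (fun h => ¬ Ag S S' h) hcon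
      intro u v hu hv hu' hv' hn ha hb
      apply ha
      exact hsame v u hv hu (nbr_symm hn)
        ⟨fun h => absurd h (Z_pl D hF hv'), fun h => absurd h (Z_pl D hF hu')⟩ hb
    exact hnot _ hob.2 hoZ hZ0
  have hZ : ∀ h ∈ bx l r c d, h ∈ D.Z → Ag S S' h := by
    apply Z_conn hf (Ag S S') hcm
    intro u v hu hv hu' hv' hn ha
    exact hsame u v hu hv hn
      ⟨fun h => absurd h (Z_pl D hF hu'), fun h => absurd h (Z_pl D hF hv')⟩ ha
  apply bx_conn (Ag S S') h0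
  intro u v hu hv hn ha
  by_cases hc : u ∈ D.pl F ↔ v ∈ D.pl F
  · exact hsame u v hu hv hn hc ha
  · obtain ⟨e, he⟩ := hn
    have hw : ¬ (s1 e ∈ D.pl F ↔ s2 e ∈ D.pl F) := by
      rcases he with ⟨e1, e2⟩ | ⟨e1, e2⟩
      · rw [e1, e2]; exact hc
      · rw [e1, e2]; exact fun h => hc h.symm
    by_cases hE : e ∈ D.E
    · have h1 := hω e (mem_om.2 ⟨hE, hw⟩)
      rcases he with ⟨e1, e2⟩ | ⟨e1, e2⟩
      · rw [e1, e2] at h1
        exact h1.1 ha
      · rw [e1, e2] at h1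
        exact h1.2 ha
    · have h1 := not_E_rows D hF hE hw
      have h2 : ∀ h, (h = s1 e ∨ h = s2 e) → h.2 ≤ D.lo ∨ D.hi ≤ h.2 := by
        have hlt := D.lohi
        obtain ⟨i, j, k⟩ := e
        intro h hh
        cases k <;> simp only [s1, s2] at h1 hh <;> rcases hh with rfl | rfl <;>
          dsimp only <;> omega
      have hv2 : v = s1 e ∨ v = s2 e := by
        rcases he with ⟨e1, e2⟩ | ⟨e1, e2⟩
        · exact Or.inr e2.symm
        · exact Or.inl e1.symm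
      rcases row_WZ D (h2 v hv2) with h3 | h3
      · exact hW v hv h3
      · exact hZ v hv h3

/-- existence of the set with the given walls -/
theorem surj_key (h1 : S_pot) (h3 : S_pth) (hf : Fits D l r c d) {F : Finset Hx} (hF : F ⊆ D.ins)
    (J : Finset Ed) (hJ : ∀ e ∈ D.om F, ∀ e' ∈ D.om F, Joined ↑(D.om F) (up e) (up e') →
      (e ∈ J ↔ e' ∈ J)) :
    ∃ S : Set Hx, (∀ e ∈ D.om F, (e ∈ J ↔ ¬ (s1 e ∈ S ↔ s2 e ∈ S))) ∧
      ∀ u v, Nbr u v → (u ∈ D.pl F ↔ v ∈ D.pl F) → (u ∈ S ↔ v ∈ S) := by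
  obtain ⟨ho, hoW, hoZ⟩ := row_om hF D.hi D.lohi.le le_rfl (D.top _ le_rfl)
  obtain ⟨hb, hbW, hbZ⟩ := row_om hF D.lo le_rfl D.lohi.le (D.bot _ le_rfl)
  set eA : Ed := (D.w D.hi, D.hi, Dir.A) with heA
  set eB : Ed := (D.w D.lo, D.lo, Dir.A) with heB
  have hup : up eA = D.a := rfl
  have hdn : dn eB = D.b := rfl
  have hjb : Joined ↑(D.om F) D.a D.b := by
    have h4 : eB ∈ thru (D.om F) {D.a} := by
      rw [(h3 D F hF).1, (h3 D F hF).2]
      refine ⟨(mem_om.1 hb).1, Or.inl ⟨⟨_, hbW, Relation.ReflTransGen.refl⟩,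
        ⟨_, hbZ, Relation.ReflTransGen.refl⟩⟩⟩
    have h5 := (mem_pth.1 h4).2
    have h6 := joined_edge (ω := ↑(D.om F)) (Finset.mem_coe.2 hb)
    rw [hdn] at h6
    exact h5.trans h6
  have hend : ∀ (v : Vx) (e : Ed), (v = D.a ∨ v = D.b) → e ∈ D.om F → Inc v e →
      (e ∈ J ↔ eA ∈ J) := by
    intro v e hv he hi
    have h4 : Joined ↑(D.om F) D.a v := by
      rcases hv with rfl | rfl
      · exact Relation.ReflTransGen.refl
      · exact hjb
    have h5 : Joined ↑(D.om F) (up eA) (up e) := by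
      rw [hup]
      exact h4.trans (joined_inc he hi)
    exact (hJ eA ho e he h5).symm
  let g : Ed → Prop := fun e => (e ∈ D.E ∧ e ∈ J) ∨ (e ∉ D.E ∧ eA ∈ J)
  obtain ⟨S, hS⟩ := h1 {e : Ed | ¬ (s1 e ∈ D.pl F ↔ s2 e ∈ D.pl F) ∧ g e} (by
    intro v
    apply even_walls (fun h => h ∈ D.pl F) g v
    intro e e' hi hi' hw hw'
    by_cases hE : e ∈ D.E
    · by_cases hE' : e' ∈ D.E
      · have h4 := hJ e (mem_om.2 ⟨hE, hw⟩) e' (mem_om.2 ⟨hE', hw'⟩)
          ((joined_inc (mem_om.2 ⟨hE, hw⟩) hi).symm.trans (joined_inc (mem_om.2 ⟨hE', hw'⟩) hi'))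
        show ((e ∈ D.E ∧ e ∈ J) ∨ (e ∉ D.E ∧ eA ∈ J)) ↔ ((e' ∈ D.E ∧ e' ∈ J) ∨ (e' ∉ D.E ∧ eA ∈ J))
        simp only [hE, hE', true_and, not_true_eq_false, false_and, or_false]
        exact h4
      · have h4 := hend v e (end_cases D hF v e e' hi hi' hE hE' hw hw') (mem_om.2 ⟨hE, hw⟩) hi
        show ((e ∈ D.E ∧ e ∈ J) ∨ (e ∉ D.E ∧ eA ∈ J)) ↔ ((e' ∈ D.E ∧ e' ∈ J) ∨ (e' ∉ D.E ∧ eA ∈ J))
        simp only [hE, hE', true_and, not_true_eq_false, false_and, or_false, not_false_eq_true,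
          false_or]
        exact h4
    · by_cases hE' : e' ∈ D.E
      · have h4 := hend v e' (end_cases D hF v e' e hi' hi hE' hE hw' hw) (mem_om.2 ⟨hE', hw'⟩) hi'
        show ((e ∈ D.E ∧ e ∈ J) ∨ (e ∉ D.E ∧ eA ∈ J)) ↔ ((e' ∈ D.E ∧ e' ∈ J) ∨ (e' ∉ D.E ∧ eA ∈ J))
        simp only [hE, hE', true_and, not_true_eq_false, false_and, or_false, not_false_eq_true,
          false_or]
        exact h4.symm
      · show ((e ∈ D.E ∧ e ∈ J) ∨ (e ∉ D.E ∧ eA ∈ J)) ↔ ((e' ∈ D.E ∧ e' ∈ J) ∨ (e' ∉ D.E ∧ eA ∈ J))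
        simp only [hE, hE', not_false_eq_true, true_and, false_and, false_or])
  refine ⟨S, ?_, ?_⟩
  · intro e he
    obtain ⟨hE, hw⟩ := mem_om.1 he
    rw [← hS e]
    constructor
    · intro h
      exact ⟨hw, Or.inl ⟨hE, h⟩⟩
    · rintro ⟨-, h | h⟩
      · exact h.2
      · exact absurd hE h.1
  · intro u v hn hc
    obtain ⟨e, he⟩ := hn
    have hw : (s1 e ∈ D.pl F ↔ s2 e ∈ D.pl F) := by
      rcases he with ⟨e1, e2⟩ | ⟨e1, e2⟩
      · rw [e1, e2]; exact hc
      · rw [e1, e2]; exact hc.symm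
    have h4 : (s1 e ∈ S ↔ s2 e ∈ S) := by
      by_contra h5
      exact ((hS e).2 h5).1 hw
    rcases he with ⟨e1, e2⟩ | ⟨e1, e2⟩
    · rw [e1, e2] at h4; exact h4
    · rw [e1, e2] at h4; exact h4.symm

/-! ### clusters -/

theorem mem_plV {V F : Finset Hx} {h : Hx} : h ∈ plV D V F ↔ h ∈ V ∧ h ∈ D.pl F := by
  simp only [plV, Finset.mem_filter]

theorem con_symm {A : Set Hx} {u v : Hx} (h : Con A u v) : Con A v u := by
  induction h with
  | refl => exact Relation.ReflTransGen.refl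
  | tail _ hs ih => exact Relation.ReflTransGen.head ⟨nbr_symm hs.1, hs.2.2, hs.2.1⟩ ih

theorem con_mem {A : Set Hx} {u v : Hx} (hu : u ∈ A) (h : Con A u v) : v ∈ A := by
  induction h with
  | refl => exact hu
  | tail _ hs _ => exact hs.2.2

/-- the cluster of a hexagon -/
def clV (D : TD) (V F : Finset Hx) (v : Hx) : Set Hx :=
  {u | (v ∈ D.pl F ∧ Con ↑(plV D V F) v u) ∨ (v ∉ D.pl F ∧ Con ↑(V \ plV D V F) v u)}

theorem clV_pos {V F : Finset Hx} {v : Hx} (h : v ∈ D.pl F) :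
    clV D V F v = {u | Con ↑(plV D V F) v u} := by
  ext u
  exact ⟨fun hu => hu.elim (fun k => k.2) (fun k => absurd h k.1), fun hu => Or.inl ⟨h, hu⟩⟩

theorem clV_neg {V F : Finset Hx} {v : Hx} (h : v ∉ D.pl F) :
    clV D V F v = {u | Con ↑(V \ plV D V F) v u} := by
  ext u
  exact ⟨fun hu => hu.elim (fun k => absurd k.1 h) (fun k => k.2), fun hu => Or.inr ⟨h, hu⟩⟩

theorem mem_B {V F : Finset Hx} {h : Hx} : h ∈ V \ plV D V F ↔ h ∈ V ∧ h ∉ D.pl F := by
  rw [Finset.mem_sdiff, mem_plV]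
  exact ⟨fun k => ⟨k.1, fun h' => k.2 ⟨k.1, h'⟩⟩, fun k => ⟨k.1, fun h' => k.2 h'.2⟩⟩

theorem clV_card (V F : Finset Hx) :
    nCl V (clV D V F) = kc (plV D V F) + kc (V \ plV D V F) := by
  have hun : clV D V F '' ↑V =
      {K : Set Hx | ∃ v ∈ plV D V F, K = {u | Con ↑(plV D V F) v u}} ∪
      {K : Set Hx | ∃ v ∈ V \ plV D V F, K = {u | Con ↑(V \ plV D V F) v u}} := by
    ext K
    constructor
    · rintro ⟨v, hv, rfl⟩
      by_cases h : v ∈ D.pl F
      · left
        exact ⟨v, mem_plV.2 ⟨hv, h⟩, clV_pos h⟩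
      · right
        exact ⟨v, mem_B.2 ⟨hv, h⟩, clV_neg h⟩
    · rintro (⟨v, hv, rfl⟩ | ⟨v, hv, rfl⟩)
      · obtain ⟨h1, h2⟩ := mem_plV.1 hv
        exact ⟨v, h1, clV_pos h2⟩
      · obtain ⟨h1, h2⟩ := mem_B.1 hv
        exact ⟨v, h1, clV_neg h2⟩
  have hfin : (clV D V F '' ↑V).Finite := (Finset.finite_toSet V).image _
  have hdis : Disjoint {K : Set Hx | ∃ v ∈ plV D V F, K = {u | Con ↑(plV D V F) v u}}
      {K : Set Hx | ∃ v ∈ V \ plV D V F, K = {u | Con ↑(V \ plV D V F) v u}} := by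
    rw [Set.disjoint_left]
    rintro K ⟨v, hv, rfl⟩ ⟨v', hv', he⟩
    have h1 : v ∈ {u | Con ↑(plV D V F) v u} := Relation.ReflTransGen.refl
    rw [he] at h1
    have h2 : v ∈ (↑(V \ plV D V F) : Set Hx) := con_mem (Finset.mem_coe.2 hv') h1
    exact (mem_B.1 (Finset.mem_coe.1 h2)).2 (mem_plV.1 hv).2
  unfold nCl kc
  rw [hun] at hfin ⊢
  rw [Set.ncard_union_eq hdis (hfin.subset Set.subset_union_left)
    (hfin.subset Set.subset_union_right)]

theorem clV_iff {V F : Finset Hx} (S : Finset Hx) :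
    (∀ x ∈ V, ∀ y ∈ V, clV D V F x = clV D V F y → (x ∈ S ↔ y ∈ S)) ↔ Loc D V F S := by
  constructor
  · intro h u v hu hv hn hc
    apply h u hu v hv
    by_cases hp : u ∈ D.pl F
    · have hp' := hc.1 hp
      have hcon : Con ↑(plV D V F) u v := Relation.ReflTransGen.single
        ⟨hn, Finset.mem_coe.2 (mem_plV.2 ⟨hu, hp⟩), Finset.mem_coe.2 (mem_plV.2 ⟨hv, hp'⟩)⟩
      rw [clV_pos hp, clV_pos hp']
      ext w
      exact ⟨fun k => (con_symm hcon).trans k, fun k => hcon.trans k⟩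
    · have hp' : v ∉ D.pl F := fun k => hp (hc.2 k)
      have hcon : Con ↑(V \ plV D V F) u v := Relation.ReflTransGen.single
        ⟨hn, Finset.mem_coe.2 (mem_B.2 ⟨hu, hp⟩), Finset.mem_coe.2 (mem_B.2 ⟨hv, hp'⟩)⟩
      rw [clV_neg hp, clV_neg hp']
      ext w
      exact ⟨fun k => (con_symm hcon).trans k, fun k => hcon.trans k⟩
  · intro h x hx y hy hxy
    by_cases hp : x ∈ D.pl F
    · have hy1 : Con ↑(plV D V F) x y := by
        by_cases hp' : y ∈ D.pl F
        · have h1 : y ∈ clV D V F y := by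
            rw [clV_pos hp']
            exact Relation.ReflTransGen.refl
          rw [← hxy, clV_pos hp] at h1
          exact h1
        · have h1 : y ∈ clV D V F y := by
            rw [clV_neg hp']
            exact Relation.ReflTransGen.refl
          rw [← hxy, clV_pos hp] at h1
          exact h1
      clear hxy hy
      induction hy1 with
      | refl => exact Iff.rfl
      | tail _ hs ih =>
        obtain ⟨k1, k2⟩ := mem_plV.1 (Finset.mem_coe.1 hs.2.1)
        obtain ⟨k3, k4⟩ := mem_plV.1 (Finset.mem_coe.1 hs.2.2)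
        exact ih.trans (h _ _ k1 k3 hs.1 ⟨fun _ => k4, fun _ => k2⟩)
    · have hy1 : Con ↑(V \ plV D V F) x y := by
        by_cases hp' : y ∈ D.pl F
        · have h1 : y ∈ clV D V F y := by
            rw [clV_pos hp']
            exact Relation.ReflTransGen.refl
          rw [← hxy, clV_neg hp] at h1
          exact h1
        · have h1 : y ∈ clV D V F y := by
            rw [clV_neg hp']
            exact Relation.ReflTransGen.refl
          rw [← hxy, clV_neg hp] at h1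
          exact h1
      clear hxy hy
      induction hy1 with
      | refl => exact Iff.rfl
      | tail _ hs ih =>
        obtain ⟨k1, k2⟩ := mem_B.1 (Finset.mem_coe.1 hs.2.1)
        obtain ⟨k3, k4⟩ := mem_B.1 (Finset.mem_coe.1 hs.2.2)
        exact ih.trans (h _ _ k1 k3 hs.1 ⟨fun k => absurd k k2, fun k => absurd k k4⟩)

/-! ### components -/

/-- the component of an edge -/
def clE (ω : Finset Ed) (e : Ed) : Set Vx := {w | Joined ↑ω (up e) w}

theorem joined_ext {ω : Finset Ed} {u v : Vx} (h : Joined ↑ω u v) :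
    {w | Joined ↑ω u w} = {w | Joined ↑ω v w} := by
  ext w
  exact ⟨fun k => h.symm.trans k, fun k => h.trans k⟩

theorem clE_iff {ω : Finset Ed} {e e' : Ed} :
    clE ω e = clE ω e' ↔ Joined ↑ω (up e) (up e') := by
  constructor
  · intro h
    have h1 : up e' ∈ clE ω e' := Relation.ReflTransGen.refl
    rw [← h] at h1
    exact h1
  · intro h
    exact joined_ext h

theorem comp_card (ω : Finset Ed) (a : Vx) (e0 : Ed) (h0 : e0 ∈ ω) (ha : up e0 = a) :
    nCl ω (clE ω) = loops ω a + 1 := by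
  have hset : clE ω '' ↑ω = insert {w | Joined ↑ω a w}
      {C : Set Vx | ∃ v, (∃ e ∈ ω, Inc v e) ∧ ¬ Joined ↑ω a v ∧ C = {w | Joined ↑ω v w}} := by
    ext C
    rw [Set.mem_insert_iff]
    constructor
    · rintro ⟨e, he, rfl⟩
      by_cases hj : Joined ↑ω a (up e)
      · left
        exact (joined_ext hj).symm
      · right
        exact ⟨up e, ⟨e, he, Or.inl rfl⟩, hj, rfl⟩
    · rintro (rfl | ⟨v, ⟨e, he, hi⟩, _, rfl⟩)
      · exact ⟨e0, h0, by unfold clE; rw [ha]⟩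
      · exact ⟨e, he, (joined_ext (joined_inc he hi)).symm⟩
  have hfin : {C : Set Vx | ∃ v, (∃ e ∈ ω, Inc v e) ∧ ¬ Joined ↑ω a v ∧
      C = {w | Joined ↑ω v w}}.Finite := by
    apply Set.Finite.subset ((Finset.finite_toSet ω).image (clE ω))
    rw [hset]
    exact Set.subset_insert _ _
  unfold nCl
  rw [hset, Set.ncard_insert_of_notMem _ hfin]
  · rfl
  · rintro ⟨v, _, hv, he⟩
    have h1 : v ∈ {w | Joined ↑ω v w} := Relation.ReflTransGen.refl
    rw [← he] at h1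
    exact hv h1

end dom

open Classical in
/-- **The number of closed loops plus two is the number of clusters of both colours.** -/
theorem t_lps (h1 : Pool.Agent.H950.ON.S_pot) (h3 : Pool.Agent.H950.ON.S_pth)
    (h4 : Pool.Agent.H950.ON.S_kc) : Pool.Agent.H950.ON.S_lps := by
  intro D l r c d hf F hF
  obtain ⟨ho, hoW, hoZ⟩ := row_om hF D.hi D.lohi.le le_rfl (D.top _ le_rfl)
  have hcomp := comp_card (D.om F) D.a _ ho rfl
  have hcl := clV_card (D := D) (bx l r c d) F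
  have hQ := inv_card (bx l r c d) (clV D (bx l r c d) F)
  have hJJ := inv_card (D.om F) (clE (D.om F))
  rw [hcl] at hQ
  rw [hcomp] at hJJ
  have hp0 : ((l, c) : Hx) ∈ bx l r c d := by
    have w1 := hf.w c le_rfl (by have := hf.lo; have := hf.hi; have := D.lohi; omega)
    have z1 := hf.z c le_rfl (by have := hf.lo; have := hf.hi; have := D.lohi; omega)
    have lt1 := D.lt c
    have := hf.lo
    have := hf.hi
    have := D.lohi
    exact mem_bx.2 ⟨⟨le_rfl, by dsimp only; omega⟩, le_rfl, by dsimp only; omega⟩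
  have hcard : (InvS (bx l r c d) (clV D (bx l r c d) F)).card =
      ((Finset.univ : Finset Bool) ×ˢ (InvS (D.om F) (clE (D.om F)))).card := by
    refine Finset.card_bij (fun S _ => (decide ((l, c) ∈ S),
      (D.om F).filter fun e => ¬ (s1 e ∈ S ↔ s2 e ∈ S))) ?_ ?_ ?_
    · intro S hS
      rw [mem_InvS, clV_iff] at hS
      rw [Finset.mem_product, mem_InvS]
      refine ⟨Finset.mem_univ _, Finset.filter_subset _ _, ?_⟩
      intro e he e' he' hee
      rw [clE_iff] at hee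
      rw [Finset.mem_filter, Finset.mem_filter]
      have h5 := same_comp hf hS.2 he hee e' he' (Or.inl rfl)
      rw [h5]
      exact ⟨fun k => ⟨he', k.2⟩, fun k => ⟨he, k.2⟩⟩
    · intro S hS S' hS' hee
      rw [mem_InvS, clV_iff] at hS hS'
      obtain ⟨hd, hJ⟩ := Prod.mk.inj hee
      have h0 : Ag S S' (l, c) := decide_eq_decide.1 hd
      have hJ' : ∀ e ∈ D.om F, ((s1 e ∈ S ↔ s2 e ∈ S) ↔ (s1 e ∈ S' ↔ s2 e ∈ S')) := by
        intro e he
        have h5 : e ∈ ((D.om F).filter fun e => ¬ (s1 e ∈ S ↔ s2 e ∈ S)) ↔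
          e ∈ ((D.om F).filter fun e => ¬ (s1 e ∈ S' ↔ s2 e ∈ S')) := by rw [hJ]
        rw [Finset.mem_filter, Finset.mem_filter] at h5
        constructor
        · intro k
          by_contra k'
          exact (h5.2 ⟨he, k'⟩).2 k
        · intro k
          by_contra k'
          exact (h5.1 ⟨he, k'⟩).2 k
      have hkey := inj_key hf hF hS.2 hS'.2 hJ' h0
      ext h
      by_cases hb : h ∈ bx l r c d
      · exact hkey h hb
      · exact ⟨fun k => absurd (hS.1 k) hb, fun k => absurd (hS'.1 k) hb⟩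
    · rintro ⟨β, J⟩ hb
      rw [Finset.mem_product, mem_InvS] at hb
      obtain ⟨-, hJ1, hJ2⟩ := hb
      obtain ⟨S0, hS0, hS1⟩ := surj_key h1 h3 hf hF J (fun e he e' he' hj =>
        hJ2 e he e' he' (clE_iff.2 hj))
      obtain ⟨b0, hb0⟩ : ∃ b0 : Prop, b0 = (((l, c) : Hx) ∈ S0 ↔ β = true) := ⟨_, rfl⟩
      have hm : ∀ h, h ∈ ((bx l r c d).filter fun h => (h ∈ S0 ↔ b0)) ↔
          h ∈ bx l r c d ∧ (h ∈ S0 ↔ b0) := fun h => Finset.mem_filter
      have hiff : ∀ u v, u ∈ bx l r c d → v ∈ bx l r c d →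
          ((u ∈ ((bx l r c d).filter fun h => (h ∈ S0 ↔ b0)) ↔
            v ∈ ((bx l r c d).filter fun h => (h ∈ S0 ↔ b0))) ↔ (u ∈ S0 ↔ v ∈ S0)) := by
        intro u v hu hv
        rw [hm, hm]
        simp only [hu, hv, true_and]
        exact pr1 _ _ _
      refine ⟨(bx l r c d).filter fun h => (h ∈ S0 ↔ b0), ?_, ?_⟩
      · rw [mem_InvS, clV_iff]
        refine ⟨Finset.filter_subset _ _, ?_⟩
        intro u v hu hv hn hc
        exact (hiff u v hu hv).2 (hS1 u v hn hc)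
      · refine Prod.ext ?_ ?_
        · show decide ((l, c) ∈ ((bx l r c d).filter fun h => (h ∈ S0 ↔ b0))) = β
          have h6 : ((l, c) : Hx) ∈ ((bx l r c d).filter fun h => (h ∈ S0 ↔ b0)) ↔ β = true := by
            rw [hm, hb0]
            simp only [hp0, true_and]
            exact pr2 _ _
          by_cases k2 : β = true
          · rw [k2, decide_eq_true_iff]
            exact h6.2 k2
          · have k3 : β = false := by simpa using k2
            rw [k3, decide_eq_false_iff_not]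
            exact fun k4 => k2 (h6.1 k4)
        · show ((D.om F).filter fun e => ¬ (s1 e ∈ ((bx l r c d).filter fun h => (h ∈ S0 ↔ b0)) ↔
            s2 e ∈ ((bx l r c d).filter fun h => (h ∈ S0 ↔ b0)))) = J
          ext e
          rw [Finset.mem_filter]
          constructor
          · rintro ⟨he, hne⟩
            obtain ⟨b1, b2⟩ := E_bx hf (mem_om.1 he).1
            rw [hiff _ _ b1 b2] at hne
            exact (hS0 e he).2 hne
          · intro he
            have he' := hJ1 he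
            obtain ⟨b1, b2⟩ := E_bx hf (mem_om.1 he').1
            refine ⟨he', ?_⟩
            rw [hiff _ _ b1 b2]
            exact (hS0 e he').1 he
  rw [hQ, Finset.card_product, Finset.card_univ, Fintype.card_bool, hJJ, ← pow_succ'] at hcard
  have h7 := Nat.pow_right_injective (le_refl 2) hcard
  omega

end Pool.Agent.H337.ONL
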